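import Mathlib

/-!
# Iterating `S` on a generalized Thue-Morse word need not give a rich word

With `S(u)_n = (u_n + u_{n+1}) mod 2` and `t_{b,2}(n) = s_b(n) mod 2` (`s_b` the sum of digits in
base `b`), the prefix of length `34` of `S^9(t_{6,2})` has only `34` distinct palindromic factors
(the empty word included), so `S^9(t_{6,2})` is not rich.
-/

set_option autoImplicit false

namespace Pool.Agent.Results.MP_dfec24_co.NotRich

/-- The operation `S`: `S(u)_n = (u_n + u_{n+1}) mod 2`. -/
def S (u : ℕ → ℕ) : ℕ → ℕ := fun n => (u n + u (n + 1)) % 2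

/-- The generalized Thue-Morse word `t_{b,2}`: the sum of the digits of `n` in base `b`,
modulo `2`. -/
def t (b : ℕ) : ℕ → ℕ := fun n => (Nat.digits b n).sum % 2

/-- The factor of length `n` of the infinite word `u` that starts at position `i`. -/
def factor (u : ℕ → ℕ) (i n : ℕ) : List ℕ := (List.range n).map fun j => u (i + j)

/-- The set of the palindromic factors of a finite word (the empty word is one of them). -/
def palFactors (w : List ℕ) : Set (List ℕ) := {p | p <:+: w ∧ p.reverse = p}

/-- A finite word is rich if it has exactly `|w| + 1` distinct palindromic factors. -/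
def Rich (w : List ℕ) : Prop := (palFactors w).ncard = w.length + 1

/-- An infinite word is rich if each of its finite factors is rich. -/
def RichSeq (u : ℕ → ℕ) : Prop := ∀ i n : ℕ, Rich (factor u i n)

theorem S_two (u : ℕ → ℕ) (n : ℕ) : S (S u) n = (u n + u (n + 2)) % 2 := by
  simp only [S, add_assoc, Nat.reduceAdd]; omega

theorem S_nine (u : ℕ → ℕ) (n : ℕ) :
    S^[9] u n = (u n + u (n + 1) + u (n + 8) + u (n + 9)) % 2 := by
  have h4 : ∀ (v : ℕ → ℕ) (m : ℕ), S (S (S (S v))) m = (v m + v (m + 4)) % 2 := by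
    intro v m
    rw [S_two, S_two, S_two]
    simp only [add_assoc, Nat.reduceAdd]; omega
  have h8 : ∀ (v : ℕ → ℕ) (m : ℕ), S (S (S (S (S (S (S (S v))))))) m = (v m + v (m + 8)) % 2 := by
    intro v m
    rw [h4, h4, h4]
    simp only [add_assoc, Nat.reduceAdd]; omega
  have : S^[9] u = S (S (S (S (S (S (S (S (S u)))))))) := rfl
  rw [this, h8]
  simp only [S, add_assoc, Nat.reduceAdd]; omega

/-- the prefix of length 34 of `S^9(t_{6,2})` -/
def w : List ℕ := [0, 0, 0, 1, 0, 1, 0, 0, 0, 1, 0, 1, 0, 0, 0, 1, 0, 1, 0, 0, 0, 1, 0, 1, 0, 0, 0, 0,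
  0, 1, 0, 0, 0, 1]

theorem factor_eq : factor (S^[9] (t 6)) 0 34 = w := by
  have : factor (S^[9] (t 6)) 0 34 = (List.range 34).map fun n =>
      (t 6 n + t 6 (n + 1) + t 6 (n + 8) + t 6 (n + 9)) % 2 := by
    simp only [factor, zero_add]
    refine List.map_congr_left fun n _ => S_nine _ _
  rw [this]
  decide +kernel

/-- all palindromic factors of a word, as a finite set -/
def pals (w : List ℕ) : Finset (List ℕ) :=
  ((Finset.range (w.length + 1) ×ˢ Finset.range (w.length + 1)).image
    fun x => (w.drop x.1).take x.2).filter fun p => p.reverse = p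

theorem subset_pals (w : List ℕ) : palFactors w ⊆ (pals w : Set (List ℕ)) := by
  rintro p ⟨⟨a, c, h⟩, hp⟩
  simp only [pals, Finset.coe_filter, Finset.mem_image, Finset.mem_product, Finset.mem_range,
    Set.mem_ofPred_eq, Prod.exists]
  refine ⟨⟨a.length, p.length, ⟨?_, ?_⟩, ?_⟩, hp⟩
  · rw [← h]; simp only [List.length_append]; omega
  · rw [← h]; simp only [List.length_append]; omega
  · rw [← h]; simp

theorem not_rich : ¬ Rich w := by
  intro h
  have h1 : (palFactors w).ncard ≤ (pals w).card := by
    rw [← Set.ncard_coe_finset]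
    exact Set.ncard_le_ncard (subset_pals w) (Finset.finite_toSet _)
  have h2 : (pals w).card = 34 := by decide +kernel
  have h3 : w.length = 34 := rfl
  rw [Rich, h3] at h
  omega

theorem result : ¬ ∀ b k : ℕ, 2 ≤ b → 1 ≤ k → RichSeq (S^[k] (t b)) := by
  intro h
  have h1 := h 6 9 (by norm_num) (by norm_num) 0 34
  rw [factor_eq] at h1
  exact not_rich h1

end Pool.Agent.Results.MP_dfec24_co.NotRich
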